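import Pool.Agent.Lib.MP_dea8c9_co.MF.Frame
import Pool.Agent.Lib.MP_dea8c9_co.MG.Two

/-!
# The squares of `MG` off the holes form frames
-/

set_option autoImplicit false
set_option linter.unusedSectionVars false

namespace Pool.Agent.Lib.MP_dea8c9_co.MF

open Finset Pool.Agent.Lib.MP_dea8c9_co.MQ
open Pool.Agent.Lib.MP_dea8c9_co.MG (Good off big al cnt_two)

variable {F K : Type} [Field F] [Fintype F] [DecidableEq F] [Field K] [Fintype K] [DecidableEq K]
variable {sg : K → Bool}

/-- the array off the holes -/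
def fr (sg : K → Bool) (k e : Bool → F) (mu : Bool → F → K) (c : F) : Sq (F × K) :=
  fun p r => off sg k e mu c p.1 r.1 p.2 r.2

theorem fr_frame (hF : (2 : F) ≠ 0) {k e : Bool → F} {mu : Bool → F → K} (h : Good sg k e mu)
    (c : F) : IsFrame (fr sg k e mu c) := by
  have hal : ∀ (s : Bool) (a : F), al k e s (-a) = al k e s a - a := by
    intro s a
    have h4 : a / 2 + a / 2 = a := by
      field_simp
      ring
    unfold al
    linear_combination -h4
  refine ⟨?_, ?_, ?_, ?_⟩
  · rintro ⟨x, z⟩ ⟨y, z1⟩ ⟨y2, z2⟩ hz1 hz2 hj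
    have hz1' : z ≠ z1 := hz1
    have hz2' : z ≠ z2 := hz2
    obtain ⟨h2, h3⟩ := Prod.mk.inj hj
    have g1 := h.refl (sg (z - z1)) (x - y - c)
    have g2 := h.refl (sg (z - z2)) (x - y2 - c)
    obtain ⟨h5, h6⟩ := h.key (-(x - y - c)) (-(x - y2 - c)) _ _ (sub_ne_zero.2 hz1')
      (sub_ne_zero.2 hz2') (by rw [hal, hal]; linear_combination h2)
      (by rw [g1, g2]; linear_combination -h3)
    have h7 : y = y2 := by linear_combination h5
    have h8 : z1 = z2 := by linear_combination -h6
    rw [h7, h8]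
  · rintro ⟨x, z⟩ ⟨x', z'⟩ ⟨y, w⟩ hz hz' hj
    have hz1 : z ≠ w := hz
    have hz2 : z' ≠ w := hz'
    obtain ⟨h2, h3⟩ := Prod.mk.inj hj
    obtain ⟨h5, h6⟩ := h.key (x - y - c) (x' - y - c) _ _ (sub_ne_zero.2 hz1)
      (sub_ne_zero.2 hz2) (add_left_cancel h2) (add_left_cancel h3)
    have h7 : x = x' := by linear_combination h5
    have h8 : z = z' := by linear_combination h6
    rw [h7, h8]
  · rintro ⟨x, z⟩ ⟨y, z'⟩ hz h2
    have hz1 : z ≠ z' := hz
    have h2' : z' + mu (sg (z - z')) (x - y - c) * (z - z') = z := h2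
    have h3 : (mu (sg (z - z')) (x - y - c) - 1) * (z - z') = 0 := by linear_combination h2'
    rcases mul_eq_zero.1 h3 with h4 | h4
    · have h5 := h.refl (sg (z - z')) (x - y - c)
      exact h.ne0 (sg (z - z')) (-(x - y - c)) (by rw [h5]; linear_combination -h4)
    · exact hz1 (sub_eq_zero.1 h4)
  · rintro ⟨x, z⟩ ⟨y, z'⟩ hz h2
    have hz1 : z ≠ z' := hz
    have h2' : z' + mu (sg (z - z')) (x - y - c) * (z - z') = z' := h2
    have h3 : mu (sg (z - z')) (x - y - c) * (z - z') = 0 := by linear_combination h2'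
    rcases mul_eq_zero.1 h3 with h4 | h4
    · exact h.ne0 _ _ h4
    · exact hz1 (sub_eq_zero.1 h4)

theorem big_none (k e : Bool → F) (mu : Bool → F → K) (c c' : F) (u v : F × K) :
    cnt (big sg k e mu (fun _ _ => none) c) (big sg k e mu (fun _ _ => none) c') (some u) (some v) =
      cf (fr sg k e mu c) (fr sg k e mu c') u v := by
  unfold cnt cf
  symm
  refine Finset.card_bij (fun p _ => (some p.1, some p.2)) ?_ ?_ ?_
  · rintro ⟨p, r⟩ hp
    obtain ⟨-, h0, h1, h2⟩ := Finset.mem_filter.1 hp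
    have h0' : ¬ p.2 = r.2 := h0
    refine Finset.mem_filter.2 ⟨mem_univ _, ?_, ?_⟩
    · show (if p.2 = r.2 then _ else some (off sg k e mu c p.1 r.1 p.2 r.2)) = some u
      rw [if_neg h0']
      exact congrArg some h1
    · show (if p.2 = r.2 then _ else some (off sg k e mu c' p.1 r.1 p.2 r.2)) = some v
      rw [if_neg h0']
      exact congrArg some h2
  · rintro ⟨p, r⟩ _ ⟨p', r'⟩ _ h
    have h1 := congrArg Prod.fst h
    have h2 := congrArg Prod.snd h
    exact Prod.ext (Option.some.inj h1) (Option.some.inj h2)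
  · rintro ⟨P, R⟩ hp
    obtain ⟨-, h1, h2⟩ := Finset.mem_filter.1 hp
    rcases P with _ | p <;> rcases R with _ | r
    · exact absurd h1 (by simp [big])
    · exact absurd h1 (by simp [big, MG.fil])
    · exact absurd h1 (by simp [big, MG.fil])
    · by_cases h : p.2 = r.2
      · have e3 : (if p.2 = r.2 then MG.fil p.2 (none : Option F) else some (off sg k e mu c p.1 r.1 p.2 r.2)) =
            some u := h1
        rw [if_pos h] at e3
        exact absurd e3 (by simp [MG.fil])
      · have e3 : (if p.2 = r.2 then MG.fil p.2 (none : Option F) else some (off sg k e mu c p.1 r.1 p.2 r.2)) =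
            some u := h1
        have e4 : (if p.2 = r.2 then MG.fil p.2 (none : Option F) else some (off sg k e mu c' p.1 r.1 p.2 r.2)) =
            some v := h2
        rw [if_neg h] at e3 e4
        exact ⟨(p, r), Finset.mem_filter.2 ⟨mem_univ _, h, Option.some.inj e3, Option.some.inj e4⟩, rfl⟩

theorem fr_pair (hF : (2 : F) ≠ 0) {k e : Bool → F} {mu : Bool → F → K} (h : Good sg k e mu)
    {c c' : F} (hc : c ≠ c') : FramePair (fr sg k e mu c) (fr sg k e mu c') := by
  refine ⟨?_, ?_⟩
  · rintro ⟨x, z⟩ ⟨y, z'⟩ hz h2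
    have hz1 : z ≠ z' := hz
    have h2' : z' + mu (sg (z - z')) (x - y - c) * (z - z') =
      z' + mu (sg (z - z')) (x - y - c') * (z - z') := h2
    have e4 := mul_right_cancel₀ (sub_ne_zero.2 hz1) (add_left_cancel h2')
    have e5 := h.inj _ e4
    exact absurd (sub_right_injective e5) hc
  · intro u v huv
    rw [← big_none, ← big_none]
    exact cnt_two hF h hc u v huv

end Pool.Agent.Lib.MP_dea8c9_co.MF
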