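import Pool.Agent.Lib.MP_dea8c9_co.MF.Prod
import Pool.Agent.Lib.MP_dea8c9_co.MF.OffF
import Pool.Agent.Lib.MP_dea8c9_co.MG.Fin
import Pool.Agent.Lib.MP_dea8c9_co.MR.FinB

/-!
# The recursion with inflation
-/

set_option autoImplicit false

namespace Pool.Agent.Lib.MP_dea8c9_co.MF

open Finset Pool.Agent.Lib.MP_dea8c9_co.MQ
open Pool.Agent.Lib.MP_dea8c9_co.MR (move)
open Pool.Agent.Lib.MP_dea8c9_co.MG (Good)

/-- There are `N` mutually quasi-orthogonal latin squares of order `n` which agree in one cell. -/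
def HasAgree (N n : ℕ) : Prop :=
  ∃ L : Fin N → Sq (Fin n), IsMQOLS L ∧ ∃ i j u, ∀ k, L k i j = u

/-- `q` is an odd prime power, and either `m` is a prime and `q - 1` has an odd divisor `≥ m`, or `q = 3 mod 4` and
`q > 2 m`. -/
def Adm (m q : ℕ) : Prop :=
  IsPrimePow q ∧ Odd q ∧
    ((m.Prime ∧ ∃ o, Odd o ∧ o ∣ q - 1 ∧ m ≤ o) ∨ (q % 4 = 3 ∧ 2 * m < q))

theorem inflate_core {F K : Type} [Field F] [Fintype F] [DecidableEq F] [Field K] [Fintype K]
    [DecidableEq K] (hF : (2 : F) ≠ 0) {sg : K → Bool} {k e : Bool → F} {mu : Bool → F → K}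
    (h : Good sg k e mu) {N t n n' : ℕ} (hN : N ≤ Fintype.card F) (hM : HasMOLS N t)
    (hn : n = Fintype.card F * t + 1) (hn' : n' = Fintype.card F * (Fintype.card K * t) + 1)
    (hA : HasAgree N n) : HasAgree N n' := by
  obtain ⟨L, hL, i, j, u, hu⟩ := hA
  obtain ⟨B, hB⟩ := hM
  obtain ⟨L1, h1, h2⟩ := move (β := Option (F × Fin t)) (by simp [hn]) hL hu none
  obtain ⟨c⟩ : Nonempty (Fin N ↪ F) := Function.Embedding.nonempty_of_card_le (by simpa using hN)
  have h3 := fill_MQOLS (A := fun n => pr (fr sg k e mu (c n)) (B n))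
    (fun n => pr_frame (fr_frame hF h (c n)) (hB.1 n))
    (fun n n' hnn => pr_pair (fr_pair hF h (fun hcc => hnn (c.injective hcc))) (hB.2 n n' hnn)) h1 h2
  have : NeZero n' := ⟨by omega⟩
  obtain ⟨M, h4, h5⟩ := move (β := Fin n') (by simp [hn']; ring) h3 (i := none) (j := none)
    (u := none) (fun _ => rfl) 0
  exact ⟨M, h4, 0, 0, 0, h5⟩

theorem two_ne {r b : ℕ} [Fact r.Prime] (hb : b ≠ 0) (h : Odd (r ^ b)) : (2 : GaloisField r b) ≠ 0 := by
  intro h2
  have h3 : ((2 : ℕ) : GaloisField r b) = 0 := by exact_mod_cast h2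
  rw [CharP.cast_eq_zero_iff (GaloisField r b) r 2] at h3
  have h4 : r = 2 := (Nat.prime_dvd_prime_iff_eq Fact.out Nat.prime_two).1 h3
  rw [h4] at h
  exact (Nat.not_even_iff_odd.2 h) (Nat.even_pow.2 ⟨even_two, hb⟩)

/-- One step. -/
theorem step {m q t N : ℕ} (hm : IsPrimePow m) (hm2 : Odd m) (hq : Adm m q) (hN : N ≤ m)
    (ht : HasMOLS N t) (hA : HasAgree N (m * t + 1)) : HasAgree N (m * (q * t) + 1) := by
  classical
  obtain ⟨hq1, hq2, hq3⟩ := hq
  rcases hq3 with ⟨hmp, o, ho, hoq, hmo⟩ | ⟨hq4, hmq⟩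
  · obtain ⟨r, b, hr, hb, rfl⟩ := hq1
    have hr' : r.Prime := Nat.prime_iff.2 hr
    have : Fact m.Prime := ⟨hmp⟩
    have : Fact r.Prime := ⟨hr'⟩
    have : NeZero m := ⟨hmp.ne_zero⟩
    letI : Fintype (GaloisField r b) := Fintype.ofFinite _
    have c2 : Fintype.card (GaloisField r b) = r ^ b := by
      rw [← Nat.card_eq_fintype_card]; exact GaloisField.card r b (by omega)
    have hK : (2 : GaloisField r b) ≠ 0 := two_ne (by omega) hq2
    have hmm : m % 2 = 1 := Nat.odd_iff.1 hm2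
    have hF : (2 : ZMod m) ≠ 0 := by
      intro h
      have h3 : ((2 : ℕ) : ZMod m) = 0 := by exact_mod_cast h
      rw [ZMod.natCast_eq_zero_iff] at h3
      have := (Nat.prime_dvd_prime_iff_eq hmp Nat.prime_two).1 h3
      omega
    obtain ⟨sg, k, e, mu, hg⟩ := MG.exists_good (K := GaloisField r b) (m := m) (o := o) hmm hK ho
      (by rw [c2]; exact hoq) hmo
    exact inflate_core hF hg (by rw [ZMod.card]; exact hN) ht (by rw [ZMod.card])
      (by rw [ZMod.card, c2]) hA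
  · obtain ⟨p, a, hp, ha, rfl⟩ := hm
    obtain ⟨r, b, hr, hb, rfl⟩ := hq1
    have hp' : p.Prime := Nat.prime_iff.2 hp
    have hr' : r.Prime := Nat.prime_iff.2 hr
    have : Fact p.Prime := ⟨hp'⟩
    have : Fact r.Prime := ⟨hr'⟩
    letI : Fintype (GaloisField p a) := Fintype.ofFinite _
    letI : Fintype (GaloisField r b) := Fintype.ofFinite _
    have c1 : Fintype.card (GaloisField p a) = p ^ a := by
      rw [← Nat.card_eq_fintype_card]; exact GaloisField.card p a (by omega)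
    have c2 : Fintype.card (GaloisField r b) = r ^ b := by
      rw [← Nat.card_eq_fintype_card]; exact GaloisField.card r b (by omega)
    have hF : (2 : GaloisField p a) ≠ 0 := two_ne (by omega) hm2
    have hq5 : Fintype.card (GaloisField r b) % 4 = 3 := by rw [c2]; exact hq4
    obtain ⟨k, e, mu, hg⟩ := MR.exists_good_odd (F := GaloisField p a) (K := GaloisField r b) hF hq5
      (by rw [c1, c2]; omega)
    have hg' : Good MR.sg k e mu := ⟨hg.kne, hg.inj, hg.ne0, hg.refl,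
      fun b hb => MR.sg_neg hq5 hb, fun a a' b b' hb hb' h1 h2 => MR.key_inj hq5 hg hb hb' h1 h2⟩
    exact inflate_core hF hg' (by rw [c1]; exact hN) ht (by rw [c1]) (by rw [c1, c2]) hA

theorem adm_lt {m q N : ℕ} (hq : Adm m q) (hN : N ≤ m) : N < q := by
  obtain ⟨hq1, hq2, hq3⟩ := hq
  have h2 := hq1.two_le
  rcases hq3 with ⟨hmp, o, ho, hoq, hmo⟩ | ⟨hq4, hmq⟩
  · have := Nat.le_of_dvd (by omega) hoq
    omega
  · omega

/-- Several steps. -/
theorem inflate {m N : ℕ} (hm : IsPrimePow m) (hm2 : Odd m) (hN : N ≤ m) (Q : ℕ) : 0 < Q →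
    (∀ p : ℕ, p.Prime → p ∣ Q → Adm m (p ^ Q.factorization p)) →
    HasMOLS N Q ∧ ∀ t, HasMOLS N t → HasAgree N (m * t + 1) → HasAgree N (m * (Q * t) + 1) := by
  induction Q using Nat.recOnPosPrimePosCoprime with
  | zero => intro h; exact absurd h (lt_irrefl _)
  | one =>
    intro _ _
    exact ⟨hasMOLS_one N, fun t _ h => by rw [one_mul]; exact h⟩
  | prime_pow p n hp hn =>
    intro _ h
    have h1 := h p hp (dvd_pow_self p hn.ne')
    rw [hp.factorization_pow, Finsupp.single_eq_same] at h1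
    exact ⟨hasMOLS_primePow hp hn.ne' (adm_lt h1 hN), fun t ht hA => step hm hm2 h1 hN ht hA⟩
  | coprime a b ha hb hab iha ihb =>
    intro _ h
    have hfa : ∀ p : ℕ, p.Prime → p ∣ a → Adm m (p ^ a.factorization p) := by
      intro p hp hpa
      have h1 := h p hp (dvd_mul_of_dvd_left hpa b)
      rwa [Nat.factorization_eq_of_coprime_left hab (Nat.mem_primeFactorsList (by omega) |>.2 ⟨hp, hpa⟩)] at h1
    have hfb : ∀ p : ℕ, p.Prime → p ∣ b → Adm m (p ^ b.factorization p) := by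
      intro p hp hpb
      have h1 := h p hp (dvd_mul_of_dvd_right hpb a)
      rwa [Nat.factorization_eq_of_coprime_right hab (Nat.mem_primeFactorsList (by omega) |>.2 ⟨hp, hpb⟩)] at h1
    obtain ⟨m1, s1⟩ := iha (by omega) hfa
    obtain ⟨m2, s2⟩ := ihb (by omega) hfb
    refine ⟨hasMOLS_mul m1 m2, fun t ht hA => ?_⟩
    rw [mul_assoc]
    exact s1 (b * t) (hasMOLS_mul m2 ht) (s2 t ht hA)

end Pool.Agent.Lib.MP_dea8c9_co.MF
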