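import Pool.Agent.Lib.MP_dea8c9_co.MQBasic

/-!
# Frames of mutually quasi-orthogonal latin squares: filling the holes

Rows, columns and symbols of a frame are the elements of `Y x H`; the cells `((x, z), (y, z'))` with `z = z'` are in the
holes and not used.  The holes (with one more element `none`) are filled with squares on `Option Y`.
-/

set_option autoImplicit false
set_option linter.unusedSectionVars false

namespace Pool.Agent.Lib.MP_dea8c9_co.MF

open Finset Pool.Agent.Lib.MP_dea8c9_co.MQ

variable {Y H : Type} [Fintype Y] [DecidableEq Y] [Fintype H] [DecidableEq H]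

/-- a latin frame -/
structure IsFrame (A : Sq (Y × H)) : Prop where
  row : ∀ x y y' : Y × H, x.2 ≠ y.2 → x.2 ≠ y'.2 → A x y = A x y' → y = y'
  col : ∀ x x' y : Y × H, x.2 ≠ y.2 → x'.2 ≠ y.2 → A x y = A x' y → x = x'
  hr : ∀ x y : Y × H, x.2 ≠ y.2 → (A x y).2 ≠ x.2
  hc : ∀ x y : Y × H, x.2 ≠ y.2 → (A x y).2 ≠ y.2

/-- number of cells outside the holes with the symbols `u`, `v` -/
def cf (A B : Sq (Y × H)) (u v : Y × H) : ℕ :=
  (univ.filter fun p : (Y × H) × (Y × H) =>
    p.1.2 ≠ p.2.2 ∧ A p.1 p.2 = u ∧ B p.1 p.2 = v).card

/-- quasi-orthogonality outside the holes -/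
structure FramePair (A B : Sq (Y × H)) : Prop where
  sep : ∀ x y : Y × H, x.2 ≠ y.2 → (A x y).2 ≠ (B x y).2
  two : ∀ u v : Y × H, u.2 ≠ v.2 → cf A B u v + cf A B v u = 2

/-- the embedding of the hole with index `z` -/
def fil (z : H) : Option Y → Option (Y × H)
  | none => none
  | some v => some (v, z)

/-- the square obtained by filling the holes -/
def fill (A : Sq (Y × H)) (L : Sq (Option Y)) : Sq (Option (Y × H))
  | none, none => none
  | some p, none => fil p.2 (L (some p.1) none)
  | none, some p => fil p.2 (L none (some p.1))
  | some p, some r => if p.2 = r.2 then fil p.2 (L (some p.1) (some r.1)) else some (A p r)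

theorem fil_inj (z : H) {a b : Option Y} (h : fil z a = fil z b) : a = b := by
  cases a with
  | none =>
    cases b with
    | none => rfl
    | some b => simp [fil] at h
  | some a =>
    cases b with
    | none => simp [fil] at h
    | some b =>
      simp only [fil, Option.some.injEq, Prod.mk.injEq] at h
      rw [h.1]

theorem fil_ne {w z : H} (h : w ≠ z) {x y : Option Y} (hx : fil w x = fil z y) : x = none := by
  cases x with
  | none => rfl
  | some a =>
    cases y with
    | none => simp [fil] at hx
    | some b =>
      simp only [fil, Option.some.injEq, Prod.mk.injEq] at hx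
      exact absurd hx.2 h

theorem fil_some {z : H} {u : Option Y} {p : Y × H} (h : fil z u = some p) : p.2 = z := by
  cases u with
  | none => simp [fil] at h
  | some a =>
    simp only [fil, Option.some.injEq] at h
    rw [← h]

theorem fill_fil (A : Sq (Y × H)) {L : Sq (Option Y)} (h0 : L none none = none) (z : H)
    (i j : Option Y) : fill A L (fil z i) (fil z j) = fil z (L i j) := by
  cases i with
  | none =>
    cases j with
    | none =>
      rw [h0]
      rfl
    | some b => rfl
  | some a =>
    cases j with
    | none => rfl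
    | some b =>
      show (if z = z then _ else _) = _
      rw [if_pos rfl]

theorem fill_off (A : Sq (Y × H)) (L : Sq (Option Y)) {p r : Y × H} (h : p.2 ≠ r.2) :
    fill A L (some p) (some r) = some (A p r) := by
  show (if p.2 = r.2 then _ else _) = _
  rw [if_neg h]

theorem row_inj {A : Sq (Y × H)} (hA : IsFrame A) {L : Sq (Option Y)} (hL : IsLatin L)
    (h0 : L none none = none) (P : Option (Y × H)) : Function.Injective (fill A L P) := by
  intro R R' hR
  rcases P with _ | ⟨x, z⟩
  · have hne : ∀ v : Y, L none (some v) ≠ none := by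
      intro v h1
      have h2 : (some v : Option Y) = none := (hL.1 none).1 (h1.trans h0.symm)
      exact absurd h2 (by simp)
    rcases R with _ | ⟨y, z1⟩ <;> rcases R' with _ | ⟨y2, z2⟩
    · rfl
    · have h1 : fil z2 none = fil z2 (L none (some y2)) := hR
      exact absurd (fil_inj z2 h1).symm (hne y2)
    · have h1 : fil z1 (L none (some y)) = fil z1 none := hR
      exact absurd (fil_inj z1 h1) (hne y)
    · have h1 : fil z1 (L none (some y)) = fil z2 (L none (some y2)) := hR
      have h2 : z1 = z2 := by
        by_contra hz
        exact hne y (fil_ne hz h1)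
      subst h2
      have h4 := (hL.1 none).1 (fil_inj z1 h1)
      rw [Option.some.inj h4]
  · have hin : ∀ y : Y, fill A L (some (x, z)) (some (y, z)) = fil z (L (some x) (some y)) := by
      intro y
      show (if z = z then _ else _) = _
      rw [if_pos rfl]
    have hout : ∀ (y : Y) (z' : H), z ≠ z' → fill A L (some (x, z)) (some (y, z')) =
        some (A (x, z) (y, z')) := fun y z' hz => fill_off A L hz
    have hno : fill A L (some (x, z)) none = fil z (L (some x) none) := rfl
    have hof : ∀ (y : Y) (z' : H) (o : Option Y), z ≠ z' → fil z o ≠ some (A (x, z) (y, z')) := by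
      intro y z' o hz h1
      exact hA.hr (x, z) (y, z') hz (fil_some h1)
    rcases R with _ | ⟨y, z1⟩ <;> rcases R' with _ | ⟨y2, z2⟩
    · rfl
    · by_cases hz2 : z = z2
      · subst hz2
        rw [hno, hin] at hR
        exact absurd ((hL.1 (some x)).1 (fil_inj z hR)) (by simp)
      · rw [hno, hout y2 z2 hz2] at hR
        exact absurd hR (hof _ _ _ hz2)
    · by_cases hz1 : z = z1
      · subst hz1
        rw [hno, hin] at hR
        exact absurd ((hL.1 (some x)).1 (fil_inj z hR)) (by simp)
      · rw [hno, hout y z1 hz1] at hR
        exact absurd hR.symm (hof _ _ _ hz1)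
    · by_cases hz1 : z = z1
      · subst hz1
        by_cases hz2 : z = z2
        · subst hz2
          rw [hin, hin] at hR
          rw [Option.some.inj ((hL.1 (some x)).1 (fil_inj z hR))]
        · rw [hin, hout y2 z2 hz2] at hR
          exact absurd hR (hof _ _ _ hz2)
      · by_cases hz2 : z = z2
        · subst hz2
          rw [hin, hout y z1 hz1] at hR
          exact absurd hR.symm (hof _ _ _ hz1)
        · rw [hout y z1 hz1, hout y2 z2 hz2] at hR
          rw [hA.row (x, z) (y, z1) (y2, z2) hz1 hz2 (Option.some.inj hR)]

theorem fill_tr (A : Sq (Y × H)) (L : Sq (Option Y)) (P R : Option (Y × H)) :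
    fill (fun x y => A y x) (fun i j => L j i) R P = fill A L P R := by
  rcases P with _ | p <;> rcases R with _ | r
  · rfl
  · rfl
  · rfl
  · by_cases h : p.2 = r.2
    · show (if r.2 = p.2 then fil r.2 (L (some p.1) (some r.1)) else _) =
        (if p.2 = r.2 then fil p.2 (L (some p.1) (some r.1)) else _)
      rw [if_pos h, if_pos h.symm, h]
    · show (if r.2 = p.2 then _ else some (A p r)) = (if p.2 = r.2 then _ else some (A p r))
      rw [if_neg h, if_neg (Ne.symm h)]

theorem col_inj {A : Sq (Y × H)} (hA : IsFrame A) {L : Sq (Option Y)} (hL : IsLatin L)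
    (h0 : L none none = none) (R : Option (Y × H)) : Function.Injective fun P => fill A L P R := by
  have hA' : IsFrame (fun x y => A y x) :=
    ⟨fun x y y' h1 h2 h3 => hA.col y y' x (Ne.symm h1) (Ne.symm h2) h3,
      fun x x' y h1 h2 h3 => hA.row y x x' (Ne.symm h1) (Ne.symm h2) h3,
      fun x y h1 => hA.hc y x (Ne.symm h1), fun x y h1 => hA.hr y x (Ne.symm h1)⟩
  have hL' : IsLatin (fun i j => L j i) := ⟨fun i => hL.2 i, fun j => hL.1 j⟩
  intro P P' h
  have h1 : fill A L P R = fill A L P' R := h
  rw [← fill_tr A L P R, ← fill_tr A L P' R] at h1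
  exact row_inj hA' hL' h0 R h1

/-- the cells with symbols of the hole `z` in both squares are in the hole -/
theorem hole_cell {A B : Sq (Y × H)} (hAB : FramePair A B) {L M : Sq (Option Y)}
    (hn : ∀ i j, L i j = none → M i j = none → i = none ∧ j = none)
    (z : H) {u v : Option Y} {P R : Option (Y × H)}
    (h1 : fill A L P R = fil z u) (h2 : fill B M P R = fil z v) :
    ∃ i j, P = fil z i ∧ R = fil z j := by
  cases P with
  | none =>
    cases R with
    | none => exact ⟨none, none, rfl, rfl⟩
    | some r =>
      obtain ⟨b, w⟩ := r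
      by_cases hw : w = z
      · subst hw
        exact ⟨none, some b, rfl, rfl⟩
      · exact absurd (hn none (some b) (fil_ne hw h1) (fil_ne hw h2)).2 (by simp)
  | some p =>
    obtain ⟨a, w⟩ := p
    cases R with
    | none =>
      by_cases hw : w = z
      · subst hw
        exact ⟨some a, none, rfl, rfl⟩
      · exact absurd (hn (some a) none (fil_ne hw h1) (fil_ne hw h2)).1 (by simp)
    | some r =>
      obtain ⟨b, w'⟩ := r
      have h1' : (if w = w' then fil w (L (some a) (some b)) else some (A (a, w) (b, w'))) = fil z u := h1
      have h2' : (if w = w' then fil w (M (some a) (some b)) else some (B (a, w) (b, w'))) = fil z v := h2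
      by_cases hww : w = w'
      · rw [if_pos hww] at h1' h2'
        by_cases hw : w = z
        · subst hww
          subst hw
          exact ⟨some a, some b, rfl, rfl⟩
        · exact absurd (hn (some a) (some b) (fil_ne hw h1') (fil_ne hw h2')).1 (by simp)
      · rw [if_neg hww] at h1' h2'
        have e1 := fil_some h1'.symm
        have e2 := fil_some h2'.symm
        exact absurd (e1.trans e2.symm) (hAB.sep (a, w) (b, w') hww)

theorem cnt_hole {A B : Sq (Y × H)} (hAB : FramePair A B)
    {L M : Sq (Option Y)} (hL : L none none = none) (hM : M none none = none)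
    (hn : ∀ i j, L i j = none → M i j = none → i = none ∧ j = none) (z : H) (u v : Option Y) :
    cnt (fill A L) (fill B M) (fil z u) (fil z v) = cnt L M u v := by
  unfold cnt
  symm
  refine Finset.card_bij (fun p _ => (fil z p.1, fil z p.2)) ?_ ?_ ?_
  · rintro ⟨i, j⟩ hp
    obtain ⟨-, h1, h2⟩ := Finset.mem_filter.1 hp
    refine Finset.mem_filter.2 ⟨mem_univ _, ?_, ?_⟩
    · show fill A L (fil z i) (fil z j) = fil z u
      rw [fill_fil A hL]
      exact congrArg (fil z) h1
    · show fill B M (fil z i) (fil z j) = fil z v
      rw [fill_fil B hM]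
      exact congrArg (fil z) h2
  · rintro ⟨i, j⟩ _ ⟨i', j'⟩ _ h
    have h1 := congrArg Prod.fst h
    have h2 := congrArg Prod.snd h
    exact Prod.ext (fil_inj z h1) (fil_inj z h2)
  · rintro ⟨P, R⟩ hp
    obtain ⟨-, h1, h2⟩ := Finset.mem_filter.1 hp
    obtain ⟨i, j, rfl, rfl⟩ := hole_cell hAB hn z h1 h2
    refine ⟨(i, j), Finset.mem_filter.2 ⟨mem_univ _, ?_, ?_⟩, rfl⟩
    · apply fil_inj z
      rw [← fill_fil A hL]
      exact h1
    · apply fil_inj z
      rw [← fill_fil B hM]
      exact h2

theorem cnt_off {A B : Sq (Y × H)} (L M : Sq (Option Y)) {u v : Y × H} (huv : u.2 ≠ v.2) :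
    cnt (fill A L) (fill B M) (some u) (some v) = cf A B u v := by
  unfold cnt cf
  symm
  refine Finset.card_bij (fun p _ => (some p.1, some p.2)) ?_ ?_ ?_
  · rintro ⟨p, r⟩ hp
    obtain ⟨-, h0, h1, h2⟩ := Finset.mem_filter.1 hp
    refine Finset.mem_filter.2 ⟨mem_univ _, ?_, ?_⟩
    · show fill A L (some p) (some r) = some u
      rw [fill_off A L h0]
      exact congrArg some h1
    · show fill B M (some p) (some r) = some v
      rw [fill_off B M h0]
      exact congrArg some h2
  · rintro ⟨p, r⟩ _ ⟨p', r'⟩ _ h
    have h1 := congrArg Prod.fst h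
    have h2 := congrArg Prod.snd h
    exact Prod.ext (Option.some.inj h1) (Option.some.inj h2)
  · rintro ⟨P, R⟩ hp
    obtain ⟨-, h1, h2⟩ := Finset.mem_filter.1 hp
    have h1' : fill A L P R = some u := h1
    have h2' : fill B M P R = some v := h2
    rcases P with _ | p <;> rcases R with _ | r
    · exact absurd h1' (by simp [fill])
    · exact absurd ((fil_some (z := r.2) h1').trans (fil_some (z := r.2) h2').symm) huv
    · exact absurd ((fil_some (z := p.2) h1').trans (fil_some (z := p.2) h2').symm) huv
    · by_cases h : p.2 = r.2
      · have e1 : fil p.2 (L (some p.1) (some r.1)) = some u := by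
          have e3 : (if p.2 = r.2 then fil p.2 (L (some p.1) (some r.1)) else some (A p r)) = some u := h1'
          rwa [if_pos h] at e3
        have e2 : fil p.2 (M (some p.1) (some r.1)) = some v := by
          have e3 : (if p.2 = r.2 then fil p.2 (M (some p.1) (some r.1)) else some (B p r)) = some v := h2'
          rwa [if_pos h] at e3
        exact absurd ((fil_some e1).trans (fil_some e2).symm) huv
      · rw [fill_off A L h] at h1'
        rw [fill_off B M h] at h2'
        exact ⟨(p, r), Finset.mem_filter.2 ⟨mem_univ _, h, Option.some.inj h1', Option.some.inj h2'⟩, rfl⟩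

theorem none_cell {N : ℕ} {L : Fin N → Sq (Option Y)} (hL : IsMQOLS L)
    (h0 : ∀ n, L n none none = none) {n n' : Fin N} (hn : n ≠ n') :
    ∀ i j, L n i j = none → L n' i j = none → i = none ∧ j = none := by
  intro i j h1 h2
  have h := (hL.2 n n' hn).1 none
  unfold cnt at h
  rw [Finset.card_eq_one] at h
  obtain ⟨x, hx⟩ := h
  have m1 : (i, j) ∈ ({x} : Finset (Option Y × Option Y)) := by
    rw [← hx]; exact Finset.mem_filter.2 ⟨mem_univ _, h1, h2⟩
  have m2 : ((none : Option Y), (none : Option Y)) ∈ ({x} : Finset (Option Y × Option Y)) := by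
    rw [← hx]; exact Finset.mem_filter.2 ⟨mem_univ _, h0 n, h0 n'⟩
  rw [Finset.mem_singleton] at m1 m2
  have := m1.trans m2.symm
  exact ⟨congrArg Prod.fst this, congrArg Prod.snd this⟩

/-- Filling the holes of a frame. -/
theorem fill_MQOLS {N : ℕ} {A : Fin N → Sq (Y × H)} (hA : ∀ n, IsFrame (A n))
    (hAB : ∀ n n', n ≠ n' → FramePair (A n) (A n')) {L : Fin N → Sq (Option Y)} (hL : IsMQOLS L)
    (h0 : ∀ n, L n none none = none) : IsMQOLS fun n => fill (A n) (L n) := by
  refine ⟨fun n => ⟨fun i => ?_, fun j => ?_⟩, fun n n' hn => ?_⟩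
  · exact Finite.injective_iff_bijective.1 (row_inj (hA n) (hL.1 n) (h0 n) i)
  · exact Finite.injective_iff_bijective.1 (col_inj (hA n) (hL.1 n) (h0 n) j)
  · have hQ := hL.2 n n' hn
    have key := fun (z : H) (u v : Option Y) =>
      cnt_hole (hAB n n' hn) (h0 n) (h0 n') (none_cell hL h0 hn) z u v
    have none_none : cnt (fill (A n) (L n)) (fill (A n') (L n')) none none = 1 := by
      unfold cnt
      rw [Finset.card_eq_one]
      refine ⟨(none, none), ?_⟩
      ext ⟨P, R⟩
      simp only [mem_filter, mem_univ, true_and, mem_singleton]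
      constructor
      · rintro ⟨h1, h2⟩
        rcases P with _ | p <;> rcases R with _ | r
        · rfl
        · have e1 : fil r.2 (L n none (some r.1)) = fil r.2 none := h1
          have e2 : fil r.2 (L n' none (some r.1)) = fil r.2 none := h2
          exact absurd (none_cell hL h0 hn _ _ (fil_inj _ e1) (fil_inj _ e2)).2 (by simp)
        · have e1 : fil p.2 (L n (some p.1) none) = fil p.2 none := h1
          have e2 : fil p.2 (L n' (some p.1) none) = fil p.2 none := h2
          exact absurd (none_cell hL h0 hn _ _ (fil_inj _ e1) (fil_inj _ e2)).1 (by simp)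
        · by_cases h : p.2 = r.2
          · have e1 : (if p.2 = r.2 then fil p.2 (L n (some p.1) (some r.1)) else some (A n p r)) = none := h1
            have e2 : (if p.2 = r.2 then fil p.2 (L n' (some p.1) (some r.1)) else some (A n' p r)) = none := h2
            rw [if_pos h] at e1 e2
            have e1' : fil p.2 (L n (some p.1) (some r.1)) = fil p.2 none := e1
            have e2' : fil p.2 (L n' (some p.1) (some r.1)) = fil p.2 none := e2
            exact absurd (none_cell hL h0 hn _ _ (fil_inj _ e1') (fil_inj _ e2')).1 (by simp)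
          · rw [fill_off _ _ h] at h1
            exact absurd h1 (by simp)
      · intro h
        have e1 : P = none := congrArg Prod.fst h
        have e2 : R = none := congrArg Prod.snd h
        rw [e1, e2]
        exact ⟨rfl, rfl⟩
    refine ⟨?_, ?_⟩
    · intro u
      cases u with
      | none => exact none_none
      | some p => simpa [fil] using (key p.2 (some p.1) (some p.1)).trans (hQ.1 (some p.1))
    · intro u v huv
      have hole : ∀ (z : H) (u v : Option Y), u ≠ v →
          cnt (fill (A n) (L n)) (fill (A n') (L n')) (fil z u) (fil z v) +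
          cnt (fill (A n) (L n)) (fill (A n') (L n')) (fil z v) (fil z u) = 2 := by
        intro z u v huv
        rw [key, key]; exact hQ.2 u v huv
      cases u with
      | none =>
        cases v with
        | none => exact absurd rfl huv
        | some p => simpa [fil] using hole p.2 none (some p.1) (by simp)
      | some r =>
        cases v with
        | none => simpa [fil] using hole r.2 (some r.1) none (by simp)
        | some p =>
          by_cases h2 : r.2 = p.2
          · have h1 : r.1 ≠ p.1 := fun h1 => huv (by rw [Prod.ext h1 h2])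
            have := hole r.2 (some r.1) (some p.1) (by simpa using h1)
            simp only [fil] at this
            rw [show r = (r.1, r.2) from rfl, show p = (p.1, r.2) from Prod.ext rfl h2.symm]
            exact this
          · have := (hAB n n' hn).two r p h2
            rw [cnt_off _ _ h2, cnt_off _ _ (Ne.symm h2)]
            exact this

end Pool.Agent.Lib.MP_dea8c9_co.MF
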