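import Pool.Agent.Lib.MP_dea8c9_co.MF.Frame

/-!
# Products of frames with orthogonal latin squares
-/

set_option autoImplicit false
set_option linter.unusedSectionVars false

namespace Pool.Agent.Lib.MP_dea8c9_co.MF

open Finset Pool.Agent.Lib.MP_dea8c9_co.MQ

variable {X T H : Type} [Fintype X] [DecidableEq X] [Fintype T] [DecidableEq T] [Fintype H]
  [DecidableEq H]

/-- the product of a frame and a square -/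
def pr (A : Sq (X × H)) (M : Sq T) : Sq ((X × T) × H) := fun p r =>
  (((A (p.1.1, p.2) (r.1.1, r.2)).1, M p.1.2 r.1.2), (A (p.1.1, p.2) (r.1.1, r.2)).2)

theorem pr_frame {A : Sq (X × H)} (hA : IsFrame A) {M : Sq T} (hM : IsLatin M) :
    IsFrame (pr A M) := by
  refine ⟨?_, ?_, ?_, ?_⟩
  · rintro ⟨⟨x, i⟩, z⟩ ⟨⟨y, j⟩, w⟩ ⟨⟨y', j'⟩, w'⟩ h1 h2 h3
    have e1 : (A (x, z) (y, w)).1 = (A (x, z) (y', w')).1 := congrArg (fun q => q.1.1) h3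
    have e2 : M i j = M i j' := congrArg (fun q => q.1.2) h3
    have e3 : (A (x, z) (y, w)).2 = (A (x, z) (y', w')).2 := congrArg (fun q => q.2) h3
    have e4 := hA.row (x, z) (y, w) (y', w') h1 h2 (Prod.ext e1 e3)
    have e5 := (hM.1 i).1 e2
    rw [Prod.mk.injEq] at e4
    rw [e4.1, e4.2, e5]
  · rintro ⟨⟨x, i⟩, z⟩ ⟨⟨x', i'⟩, z'⟩ ⟨⟨y, j⟩, w⟩ h1 h2 h3
    have e1 : (A (x, z) (y, w)).1 = (A (x', z') (y, w)).1 := congrArg (fun q => q.1.1) h3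
    have e2 : M i j = M i' j := congrArg (fun q => q.1.2) h3
    have e3 : (A (x, z) (y, w)).2 = (A (x', z') (y, w)).2 := congrArg (fun q => q.2) h3
    have e4 := hA.col (x, z) (x', z') (y, w) h1 h2 (Prod.ext e1 e3)
    have e5 := (hM.2 j).1 e2
    rw [Prod.mk.injEq] at e4
    rw [e4.1, e4.2, e5]
  · rintro ⟨⟨x, i⟩, z⟩ ⟨⟨y, j⟩, w⟩ h1
    exact hA.hr (x, z) (y, w) h1
  · rintro ⟨⟨x, i⟩, z⟩ ⟨⟨y, j⟩, w⟩ h1
    exact hA.hc (x, z) (y, w) h1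

theorem pr_cf (A B : Sq (X × H)) (M M' : Sq T) (u v : (X × T) × H) :
    cf (pr A M) (pr B M') u v = cf A B (u.1.1, u.2) (v.1.1, v.2) * cnt M M' u.1.2 v.1.2 := by
  unfold cf cnt
  rw [← Finset.card_product]
  refine Finset.card_bij
    (fun p _ => (((p.1.1.1, p.1.2), (p.2.1.1, p.2.2)), (p.1.1.2, p.2.1.2))) ?_ ?_ ?_
  · rintro ⟨⟨⟨x, i⟩, z⟩, ⟨⟨y, j⟩, w⟩⟩ hp
    simp only [mem_filter, mem_univ, true_and, pr, mem_product, Prod.ext_iff] at hp ⊢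
    exact ⟨⟨hp.1, ⟨hp.2.1.1.1, hp.2.1.2⟩, hp.2.2.1.1, hp.2.2.2⟩, hp.2.1.1.2, hp.2.2.1.2⟩
  · rintro ⟨⟨⟨x, i⟩, z⟩, ⟨⟨y, j⟩, w⟩⟩ _ ⟨⟨⟨x', i'⟩, z'⟩, ⟨⟨y', j'⟩, w'⟩⟩ _ h
    simp only [Prod.mk.injEq] at h
    obtain ⟨⟨⟨h1, h2⟩, h3, h4⟩, h5, h6⟩ := h
    rw [h1, h2, h3, h4, h5, h6]
  · rintro ⟨⟨⟨x, z⟩, ⟨y, w⟩⟩, i, j⟩ hp
    refine ⟨(((x, i), z), ((y, j), w)), ?_, rfl⟩
    simp only [mem_filter, mem_univ, true_and, pr, mem_product, Prod.ext_iff] at hp ⊢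
    exact ⟨hp.1.1, ⟨⟨hp.1.2.1.1, hp.2.1⟩, hp.1.2.1.2⟩, ⟨hp.1.2.2.1, hp.2.2⟩, hp.1.2.2.2⟩

theorem pr_pair {A B : Sq (X × H)} (hAB : FramePair A B) {M M' : Sq T} (hM : Orth M M') :
    FramePair (pr A M) (pr B M') := by
  refine ⟨?_, ?_⟩
  · rintro ⟨⟨x, i⟩, z⟩ ⟨⟨y, j⟩, w⟩ h1
    exact hAB.sep (x, z) (y, w) h1
  · rintro u v huv
    rw [pr_cf, pr_cf, hM, hM, mul_one, mul_one]
    exact hAB.two (u.1.1, u.2) (v.1.1, v.2) huv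

end Pool.Agent.Lib.MP_dea8c9_co.MF
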